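import Pool.Agent.Run7.h417.TK.STP

/-!
# Project TK, piece BAD (helper579)
-/

set_option autoImplicit false

open MeasureTheory Set Filter Topology
open scoped ENNReal
open R109.GT
open Run7.h608.TK Run7.h417.TK.STP

namespace Run7.h579.TK

lemma key (w : ℕ → ℤ → ℤ) (hw : Sgn w) (n m : ℕ) (i : ℤ) (x y : ℝ)
    (hx : x ∈ Icc ((i : ℝ) / 2 ^ n) ((i + 1 : ℝ) / 2 ^ n))
    (hy : y ∈ Icc ((i : ℝ) / 2 ^ n) ((i + 1 : ℝ) / 2 ^ n)) (hxy : x ≤ y) :
    |(part w (n + m) y - part w (n + m) x) - (slope w n i : ℝ) * (y - x)| ≤ m * (y - x) := by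
  have h1 : part w n y - part w n x = (slope w n i : ℝ) * (y - x) := by
    rw [affine w hw n i x hx, affine w hw n i y hy]
    field_simp
    ring
  have h2 := lip w hw n m x y hxy
  have h3 : (part w (n + m) y - part w (n + m) x) - (slope w n i : ℝ) * (y - x) =
      -((part w (n + m) x - part w n x) - (part w (n + m) y - part w n y)) := by
    rw [← h1]; ring
  rw [h3, abs_neg]
  exact h2

lemma ends (w : ℕ → ℤ → ℤ) (hw : Sgn w) (n m : ℕ) (i : ℤ) :
    part w (n + m) ((i : ℝ) / 2 ^ n) = val w n i / 2 ^ n ∧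
    part w (n + m) ((i + 1 : ℝ) / 2 ^ n) = (val w n i + slope w n i) / 2 ^ n := by
  have hp : (0:ℝ) < 2 ^ n := by positivity
  have hlt : (i : ℝ) / 2 ^ n < (i + 1 : ℝ) / 2 ^ n := by
    apply div_lt_div_of_pos_right _ hp
    linarith
  constructor
  · rw [part_dyadic, affine w hw n i _ (left_mem_Icc.mpr hlt.le)]
    congr 1
    field_simp
    ring
  · have h1 := part_dyadic w n m (i + 1)
    push_cast at h1
    rw [h1, affine w hw n i _ (right_mem_Icc.mpr hlt.le)]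
    congr 1
    field_simp
    ring

lemma mem_Icc_of_J {n : ℕ} {i : ℤ} {x : ℝ} (hx : x ∈ J n i) :
    x ∈ Icc ((i : ℝ) / 2 ^ n) ((i + 1 : ℝ) / 2 ^ n) := by
  rw [R109.GT.PC.J_eq_Ico] at hx
  exact ⟨hx.1, hx.2.le⟩

lemma cr (w : ℕ → ℤ → ℤ) (hw : Sgn w) (n m : ℕ) (i q : ℤ) (x : ℝ) (hx : x ∈ J n i)
    (hk : (m : ℝ) < |(slope w n i : ℝ)|) (h1 : (q : ℝ) < 2 ^ n * part w (n + m) x)
    (h2 : 2 ^ n * part w (n + m) x < q + 1) : Cr w n i q := by
  have hp : (0:ℝ) < 2 ^ n := by positivity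
  have hI := mem_Icc_of_J hx
  have hlt : (i : ℝ) / 2 ^ n ≤ (i + 1 : ℝ) / 2 ^ n := hI.1.trans hI.2
  obtain ⟨hL, hR⟩ := ends w hw n m i
  have kL := abs_le.1 (key w hw n m i _ x (left_mem_Icc.mpr hlt) hI hI.1)
  have kR := abs_le.1 (key w hw n m i x _ hI (right_mem_Icc.mpr hlt) hI.2)
  rw [hL] at kL
  rw [hR] at kR
  have dL : 0 ≤ x - (i : ℝ) / 2 ^ n := by linarith [hI.1]
  have dR : 0 ≤ (i + 1 : ℝ) / 2 ^ n - x := by linarith [hI.2]
  have eL : 2 ^ n * ((val w n i : ℝ) / 2 ^ n) = val w n i := by field_simp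
  have eR : 2 ^ n * (((val w n i : ℝ) + slope w n i) / 2 ^ n) = val w n i + slope w n i := by
    field_simp
  rcases le_or_gt 0 (slope w n i : ℝ) with hs | hs
  · rw [abs_of_nonneg hs] at hk
    left
    have a1 : (val w n i : ℝ) / 2 ^ n ≤ part w (n + m) x := by nlinarith
    have a2 : part w (n + m) x ≤ ((val w n i : ℝ) + slope w n i) / 2 ^ n := by nlinarith
    have b1 := mul_le_mul_of_nonneg_left a1 hp.le
    have b2 := mul_le_mul_of_nonneg_left a2 hp.le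
    rw [eL] at b1
    rw [eR] at b2
    have c1 : (val w n i : ℝ) < (q : ℝ) + 1 := by linarith
    have c2 : (q : ℝ) < (val w n i : ℝ) + slope w n i := by linarith
    have d1 : val w n i < q + 1 := by exact_mod_cast c1
    have d2 : q < val w n i + slope w n i := by exact_mod_cast c2
    constructor <;> omega
  · rw [abs_of_neg hs] at hk
    right
    have a1 : part w (n + m) x ≤ (val w n i : ℝ) / 2 ^ n := by nlinarith
    have a2 : ((val w n i : ℝ) + slope w n i) / 2 ^ n ≤ part w (n + m) x := by nlinarith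
    have b1 := mul_le_mul_of_nonneg_left a1 hp.le
    have b2 := mul_le_mul_of_nonneg_left a2 hp.le
    rw [eL] at b1
    rw [eR] at b2
    have c1 : (q : ℝ) < (val w n i : ℝ) := by linarith
    have c2 : (val w n i : ℝ) + slope w n i < (q : ℝ) + 1 := by linarith
    have d1 : q < val w n i := by exact_mod_cast c1
    have d2 : val w n i + slope w n i < q + 1 := by exact_mod_cast c2
    constructor <;> omega

lemma small (w : ℕ → ℤ → ℤ) (hw : Sgn w) (n m : ℕ) (i q : ℤ)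
    (hk : (m : ℝ) < |(slope w n i : ℝ)|) :
    volume {x : ℝ | x ∈ J n i ∧ (q : ℝ) ≤ 2 ^ n * part w (n + m) x ∧
      2 ^ n * part w (n + m) x ≤ q + 1} ≤
      ENNReal.ofReal (1 / 2 ^ n / (|(slope w n i : ℝ)| - m)) := by
  have hp : (0:ℝ) < 2 ^ n := by positivity
  have hkm : 0 < |(slope w n i : ℝ)| - m := by linarith
  have main : ∀ x ∈ {x : ℝ | x ∈ J n i ∧ (q : ℝ) ≤ 2 ^ n * part w (n + m) x ∧
      2 ^ n * part w (n + m) x ≤ q + 1}, ∀ y ∈ {x : ℝ | x ∈ J n i ∧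
      (q : ℝ) ≤ 2 ^ n * part w (n + m) x ∧ 2 ^ n * part w (n + m) x ≤ q + 1}, x ≤ y →
      y - x ≤ 1 / 2 ^ n / (|(slope w n i : ℝ)| - m) := by
    intro x hx y hy hxy
    have h := key w hw n m i x y (mem_Icc_of_J hx.1) (mem_Icc_of_J hy.1) hxy
    have h1 : |part w (n + m) y - part w (n + m) x| ≤ 1 / 2 ^ n := by
      have hpa : |(part w (n + m) y - part w (n + m) x)| * 2 ^ n =
          |(part w (n + m) y - part w (n + m) x) * 2 ^ n| := by
        rw [abs_mul, abs_of_pos hp]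
      rw [le_div_iff₀ hp, hpa, abs_le]
      constructor <;> nlinarith [hx.2.1, hx.2.2, hy.2.1, hy.2.2]
    have h2 : |(slope w n i : ℝ) * (y - x)| ≤ 1 / 2 ^ n + m * (y - x) := by
      have e : (slope w n i : ℝ) * (y - x) = (part w (n + m) y - part w (n + m) x) -
        ((part w (n + m) y - part w (n + m) x) - (slope w n i : ℝ) * (y - x)) := by ring
      rw [e]
      exact (abs_sub _ _).trans (add_le_add h1 h)
    rw [abs_mul, abs_of_nonneg (by linarith : 0 ≤ y - x)] at h2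
    rw [le_div_iff₀ hkm]
    linarith
  refine (Real.volume_le_diam _).trans ?_
  refine Metric.ediam_le ?_
  intro x hx y hy
  rw [edist_dist, Real.dist_eq]
  apply ENNReal.ofReal_le_ofReal
  rcases le_total x y with h | h
  · rw [abs_sub_comm, abs_of_nonneg (by linarith)]
    exact main x hx y hy h
  · rw [abs_of_nonneg (by linarith)]
    exact main y hy x hx h


/-- the points near the integers -/
lemma near (w : ℕ → ℤ → ℤ) (hw : Sgn w) (D : ℝ) (hB : Bd w D) (hD : 0 ≤ D) (m n : ℕ) :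
    volume {x : ℝ | x ∈ Ico (0:ℝ) 1 ∧
      |(2:ℝ) ^ n * tak w x - round ((2:ℝ) ^ n * tak w x)| ≤ 2 / 2 ^ m} ≤
    ENNReal.ofReal (12 * D / 2 ^ m) := by
  have hp : (0:ℝ) < 2 ^ n := by positivity
  have hpm : (0:ℝ) < 2 ^ m := by positivity
  set A : Set ℝ := ⋃ k ∈ Finset.Icc (-(2 ^ n : ℤ)) (2 ^ n),
    Icc (((k : ℝ) - 2 / 2 ^ m) / 2 ^ n) (((k : ℝ) + 2 / 2 ^ m) / 2 ^ n) with hA
  have hAm : MeasurableSet A := Finset.measurableSet_biUnion _ fun k _ => measurableSet_Icc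
  have hsub : {x : ℝ | x ∈ Ico (0:ℝ) 1 ∧
      |(2:ℝ) ^ n * tak w x - round ((2:ℝ) ^ n * tak w x)| ≤ 2 / 2 ^ m} ⊆
      tak w ⁻¹' A ∩ Ico (0:ℝ) 1 := by
    rintro x ⟨hx, h⟩
    refine ⟨?_, hx⟩
    rw [mem_preimage, hA, mem_iUnion₂]
    have hb := abs_le.1 (bound w hw x)
    have hr := abs_le.1 (abs_sub_round ((2:ℝ) ^ n * tak w x))
    refine ⟨round ((2:ℝ) ^ n * tak w x), ?_, ?_⟩
    · rw [Finset.mem_Icc]
      constructor
      · have : (-(2 ^ n : ℝ)) - 1 < (round ((2:ℝ) ^ n * tak w x) : ℝ) := by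
          nlinarith [mul_le_mul_of_nonneg_left hb.1 hp.le]
        have h2 : (((-(2 ^ n : ℤ)) - 1 : ℤ) : ℝ) < (round ((2:ℝ) ^ n * tak w x) : ℝ) := by
          push_cast
          exact this
        have h3 := Int.cast_lt.1 h2
        omega
      · have : (round ((2:ℝ) ^ n * tak w x) : ℝ) < (2 ^ n : ℝ) + 1 := by
          nlinarith [mul_le_mul_of_nonneg_left hb.2 hp.le]
        have h2 : (round ((2:ℝ) ^ n * tak w x) : ℝ) < (((2 ^ n : ℤ) + 1 : ℤ) : ℝ) := by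
          push_cast
          exact this
        have h3 := Int.cast_lt.1 h2
        omega
    · rw [abs_le] at h
      rw [mem_Icc, div_le_iff₀ hp, le_div_iff₀ hp]
      constructor <;> linarith [h.1, h.2]
  have hvol : volume A ≤ ENNReal.ofReal (12 / 2 ^ m) := by
    refine (measure_biUnion_finset_le _ _).trans ?_
    have h1 : ∀ k ∈ Finset.Icc (-(2 ^ n : ℤ)) (2 ^ n),
        volume (Icc (((k : ℝ) - 2 / 2 ^ m) / 2 ^ n) (((k : ℝ) + 2 / 2 ^ m) / 2 ^ n)) =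
        ENNReal.ofReal (4 / 2 ^ m / 2 ^ n) := by
      intro k _
      rw [Real.volume_Icc]
      congr 1
      ring
    rw [Finset.sum_congr rfl h1, Finset.sum_const, nsmul_eq_mul, Int.card_Icc]
    have h2 : ((2 ^ n + 1 - -(2 ^ n) : ℤ).toNat : ENNReal) ≤ ENNReal.ofReal (3 * 2 ^ n) := by
      have e : (2 ^ n + 1 - -(2 ^ n) : ℤ).toNat = 2 * 2 ^ n + 1 := by
        have : (2 ^ n + 1 - -(2 ^ n) : ℤ) = ((2 * 2 ^ n + 1 : ℕ) : ℤ) := by push_cast; ring
        rw [this, Int.toNat_natCast]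
      rw [e, ← ENNReal.ofReal_natCast]
      apply ENNReal.ofReal_le_ofReal
      push_cast
      have : (1:ℝ) ≤ 2 ^ n := one_le_pow₀ (by norm_num)
      linarith
    refine (mul_le_mul_left h2 _).trans ?_
    rw [← ENNReal.ofReal_mul (by positivity)]
    apply ENNReal.ofReal_le_ofReal
    apply le_of_eq
    field_simp
    norm_num
  calc volume {x : ℝ | x ∈ Ico (0:ℝ) 1 ∧
      |(2:ℝ) ^ n * tak w x - round ((2:ℝ) ^ n * tak w x)| ≤ 2 / 2 ^ m}
      ≤ volume (tak w ⁻¹' A ∩ Ico (0:ℝ) 1) := measure_mono hsub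
    _ = occ w A := by
        rw [occ, Measure.map_apply (cont w hw).measurable hAm,
          Measure.restrict_apply ((cont w hw).measurable hAm)]
    _ ≤ (ENNReal.ofReal D • (volume : Measure ℝ)) A := hB A
    _ = ENNReal.ofReal D * volume A := by rw [Measure.smul_apply, smul_eq_mul]
    _ ≤ ENNReal.ofReal D * ENNReal.ofReal (12 / 2 ^ m) := by gcongr
    _ = ENNReal.ofReal (12 * D / 2 ^ m) := by
        rw [← ENNReal.ofReal_mul hD]
        congr 1
        ring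

/-- the other points -/
lemma far (w : ℕ → ℤ → ℤ) (hw : Sgn w) (c : ℝ) (hc : 0 < c) (m n : ℕ) (hn : 1 ≤ n)
    (hmn : 16 * m ^ 2 ≤ n) :
    volume {x : ℝ | x ∈ Ico (0:ℝ) 1 ∧ (n:ℤ) ≤ 4 * (S w n x) ^ 2 ∧
      (Nc w n ⌊(2:ℝ) ^ n * tak w x⌋ : ℝ) < c * √n ∧
      2 / 2 ^ m < |(2:ℝ) ^ n * tak w x - round ((2:ℝ) ^ n * tak w x)|} ≤
    ENNReal.ofReal (12 * c) := by
  classical
  have hp : (0:ℝ) < 2 ^ n := by positivity
  have hpm : (0:ℝ) < 2 ^ m := by positivity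
  have hn0 : (0:ℝ) < n := by exact_mod_cast hn
  have hsn : 0 < √(n:ℝ) := Real.sqrt_pos.2 hn0
  have hss : √(n:ℝ) * √(n:ℝ) = n := Real.mul_self_sqrt hn0.le
  set Q : Finset ℤ := (Finset.Icc (-(2 ^ n : ℤ)) (2 ^ n)).filter
    (fun q => (Nc w n q : ℝ) < c * √n) with hQ
  set I : ℤ → Finset ℤ := fun q => (ivs n).filter
    (fun i => Cr w n i q ∧ (n:ℤ) ≤ 4 * (slope w n i) ^ 2) with hI
  have hslope : ∀ i : ℤ, (n:ℤ) ≤ 4 * (slope w n i) ^ 2 →
      (m : ℝ) < |(slope w n i : ℝ)| ∧ √n / 4 ≤ |(slope w n i : ℝ)| - m := by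
    intro i hi
    have h1 : (n:ℝ) ≤ 4 * (slope w n i : ℝ) ^ 2 := by exact_mod_cast hi
    rw [← sq_abs (slope w n i : ℝ)] at h1
    set k := |(slope w n i : ℝ)| with hk
    have hk0 : 0 ≤ k := abs_nonneg _
    have h2 : √(n:ℝ) ≤ 2 * k := by
      apply Real.sqrt_le_iff.2
      constructor
      · positivity
      · nlinarith
    have h3 : 4 * (m:ℝ) ≤ √(n:ℝ) := by
      apply Real.le_sqrt_of_sq_le
      have : (16 * (m:ℝ) ^ 2) ≤ n := by exact_mod_cast hmn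
      nlinarith
    constructor
    · linarith
    · linarith
  have hsub : {x : ℝ | x ∈ Ico (0:ℝ) 1 ∧ (n:ℤ) ≤ 4 * (S w n x) ^ 2 ∧
      (Nc w n ⌊(2:ℝ) ^ n * tak w x⌋ : ℝ) < c * √n ∧
      2 / 2 ^ m < |(2:ℝ) ^ n * tak w x - round ((2:ℝ) ^ n * tak w x)|} ⊆
      ⋃ q ∈ Q, ⋃ i ∈ I q, {x : ℝ | x ∈ J n i ∧ (q : ℝ) ≤ 2 ^ n * part w (n + m) x ∧
        2 ^ n * part w (n + m) x ≤ q + 1} := by
    rintro x ⟨hx, hS, hN, hd⟩
    set u := (2:ℝ) ^ n * tak w x with hu
    have hb := abs_le.1 (bound w hw x)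
    have hs := split w hw (n + m) x
    have hbd := bound (fun j => w (n + m + j)) (fun a d => hw (n + m + a) d)
      ((2:ℝ) ^ (n + m) * x)
    have he : 2 ^ n * tak w x = 2 ^ n * part w (n + m) x
        + tak (fun j => w (n + m + j)) ((2:ℝ) ^ (n + m) * x) * (1 / 2 ^ m) := by
      rw [hs, pow_add]
      field_simp
    have hb1 := (abs_le.mp hbd).1
    have hb2 := (abs_le.mp hbd).2
    have hpos : 0 < 1 / (2:ℝ) ^ m := by positivity
    have hP1 : 2 ^ n * part w (n + m) x ≤ u + 1 / 2 ^ m := by rw [hu, he]; nlinarith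
    have hP2 : u - 1 / 2 ^ m ≤ 2 ^ n * part w (n + m) x := by rw [hu, he]; nlinarith
    have h2m : 2 / (2:ℝ) ^ m = 2 * (1 / 2 ^ m) := by ring
    have f1 : (⌊u⌋ : ℝ) + 2 / 2 ^ m < u := by
      have h1 := round_le u ⌊u⌋
      have h2 := Int.floor_le u
      rw [abs_of_nonneg (by linarith : 0 ≤ u - ⌊u⌋)] at h1
      linarith
    have f2 : u < (⌊u⌋ : ℝ) + 1 - 2 / 2 ^ m := by
      have h1 := round_le u (⌊u⌋ + 1)
      have h2 := Int.lt_floor_add_one u
      push_cast at h1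
      rw [abs_of_nonpos (by linarith : u - (⌊u⌋ + 1) ≤ 0)] at h1
      linarith
    have g1 : (⌊u⌋ : ℝ) < 2 ^ n * part w (n + m) x := by linarith
    have g2 : 2 ^ n * part w (n + m) x < (⌊u⌋ : ℝ) + 1 := by linarith
    have hxJ : x ∈ J n ⌊(2:ℝ) ^ n * x⌋ := rfl
    have hk := (hslope ⌊(2:ℝ) ^ n * x⌋ hS).1
    rw [mem_iUnion₂]
    refine ⟨⌊u⌋, ?_, ?_⟩
    · rw [hQ, Finset.mem_filter, Finset.mem_Icc]
      refine ⟨⟨?_, ?_⟩, hN⟩
      · rw [Int.le_floor]
        push_cast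
        nlinarith [mul_le_mul_of_nonneg_left hb.1 hp.le]
      · have : ⌊u⌋ < 2 ^ n + 1 := by
          rw [Int.floor_lt]
          push_cast
          nlinarith [mul_le_mul_of_nonneg_left hb.2 hp.le]
        omega
    · rw [mem_iUnion₂]
      refine ⟨⌊(2:ℝ) ^ n * x⌋, ?_, hxJ, g1.le, g2.le⟩
      rw [hI]
      simp only [Finset.mem_filter]
      refine ⟨?_, cr w hw n m _ _ x hxJ hk g1 g2, hS⟩
      rw [ivs, Finset.mem_Ico]
      constructor
      · exact Int.floor_nonneg.2 (mul_nonneg hp.le hx.1)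
      · rw [Int.floor_lt]
        push_cast
        nlinarith [hx.2]
  refine (measure_mono hsub).trans ?_
  refine (measure_biUnion_finset_le _ _).trans ?_
  have h1 : ∀ q ∈ Q, volume (⋃ i ∈ I q, {x : ℝ | x ∈ J n i ∧
      (q : ℝ) ≤ 2 ^ n * part w (n + m) x ∧ 2 ^ n * part w (n + m) x ≤ q + 1}) ≤
      ENNReal.ofReal (4 * c / 2 ^ n) := by
    intro q hq
    refine (measure_biUnion_finset_le _ _).trans ?_
    have h2 : ∀ i ∈ I q, volume {x : ℝ | x ∈ J n i ∧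
      (q : ℝ) ≤ 2 ^ n * part w (n + m) x ∧ 2 ^ n * part w (n + m) x ≤ q + 1} ≤
      ENNReal.ofReal (4 / √n / 2 ^ n) := by
      intro i hi
      rw [hI] at hi
      simp only [Finset.mem_filter] at hi
      obtain ⟨k1, k2⟩ := hslope i hi.2.2
      refine (small w hw n m i q k1).trans ?_
      apply ENNReal.ofReal_le_ofReal
      have e : 4 / √(n:ℝ) / 2 ^ n = 1 / 2 ^ n / (√n / 4) := by field_simp
      rw [e]
      apply div_le_div_of_nonneg_left (by positivity) (by positivity) k2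
    refine (Finset.sum_le_sum h2).trans ?_
    rw [Finset.sum_const, nsmul_eq_mul]
    have h3 : ((I q).card : ℝ) ≤ c * √n := by
      rw [hQ, Finset.mem_filter] at hq
      refine le_trans ?_ hq.2.le
      rw [Nc]
      exact_mod_cast Finset.card_le_card (fun i hi => by
        rw [hI] at hi
        simp only [Finset.mem_filter] at hi ⊢
        exact ⟨hi.1, hi.2.1⟩)
    rw [← ENNReal.ofReal_natCast, ← ENNReal.ofReal_mul (by positivity)]
    apply ENNReal.ofReal_le_ofReal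
    calc ((I q).card : ℝ) * (4 / √n / 2 ^ n) ≤ (c * √n) * (4 / √n / 2 ^ n) := by gcongr
      _ = 4 * c / 2 ^ n := by field_simp
  refine (Finset.sum_le_sum h1).trans ?_
  rw [Finset.sum_const, nsmul_eq_mul]
  have h4 : (Q.card : ℝ) ≤ 3 * 2 ^ n := by
    have h5 : Q.card ≤ 2 * 2 ^ n + 1 := by
      refine (Finset.card_filter_le _ _).trans ?_
      rw [Int.card_Icc]
      have : (2 ^ n + 1 - -(2 ^ n) : ℤ) = ((2 * 2 ^ n + 1 : ℕ) : ℤ) := by push_cast; ring
      rw [this, Int.toNat_natCast]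
    have h6 : (Q.card : ℝ) ≤ 2 * 2 ^ n + 1 := by exact_mod_cast h5
    have : (1:ℝ) ≤ 2 ^ n := one_le_pow₀ (by norm_num)
    linarith
  rw [← ENNReal.ofReal_natCast, ← ENNReal.ofReal_mul (by positivity)]
  apply ENNReal.ofReal_le_ofReal
  calc (Q.card : ℝ) * (4 * c / 2 ^ n) ≤ (3 * 2 ^ n) * (4 * c / 2 ^ n) := by gcongr
    _ = 12 * c := by field_simp; norm_num

theorem t_BAD : S_BAD := by
  intro w D c m n hw hB hD hc hn hmn
  have hD0 : 0 ≤ D := by linarith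
  have hpm : (0:ℝ) < 2 ^ m := by positivity
  refine (measure_mono (t := {x : ℝ | x ∈ Ico (0:ℝ) 1 ∧ (n:ℤ) ≤ 4 * (S w n x) ^ 2 ∧
      (Nc w n ⌊(2:ℝ) ^ n * tak w x⌋ : ℝ) < c * √n ∧
      2 / 2 ^ m < |(2:ℝ) ^ n * tak w x - round ((2:ℝ) ^ n * tak w x)|} ∪
      {x : ℝ | x ∈ Ico (0:ℝ) 1 ∧
      |(2:ℝ) ^ n * tak w x - round ((2:ℝ) ^ n * tak w x)| ≤ 2 / 2 ^ m}) ?_).trans ?_
  · rintro x ⟨hx, hS, h⟩
    rcases le_or_gt |(2:ℝ) ^ n * tak w x - round ((2:ℝ) ^ n * tak w x)| (2 / 2 ^ m) with h1 | h1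
    · right
      exact ⟨hx, h1⟩
    · left
      rcases h with h | h
      · exact ⟨hx, hS, h, h1⟩
      · exact absurd h (not_le.2 h1)
  · refine (measure_union_le _ _).trans ?_
    refine (add_le_add (far w hw c hc m n hn hmn) (near w hw D hB hD0 m n)).trans ?_
    rw [← ENNReal.ofReal_add (by positivity) (by positivity)]
    apply ENNReal.ofReal_le_ofReal
    have : 12 * D / 2 ^ m ≤ 16 * D / 2 ^ m := by
      apply div_le_div_of_nonneg_right _ hpm.le
      linarith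
    linarith

end Run7.h579.TK
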